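import Mathlib
import Pool.Agent.Q263.PK.Quad

/-!
# The values `x ^ 2 + x + A` at the integers with restricted digits, for all odd `A`

Fix a base `b ≥ 2`. For `k ≥ 1` choose for every position `i < k` a set `D i` of digits, in any way,
such that two digits in `D i` have a difference without prime factors outside `b`, for example two
consecutive digits. Let `S` be the set of the integers `0 ≤ x < b ^ k` whose `i`-th digit is in
`D i` for every `i`; it may have only `2 ^ k` elements. For an odd integer `A` let `Δ = 1 - 4 A`, let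
`S(y)` be the set of the `x ∈ S` such that `x ^ 2 + x + A` has no prime factor `≤ y`,
`V(y) = ∏_{p ≤ y} (1 - 1 / p)`, and `C(Δ, y) = ∏_{3 ≤ p ≤ y} (1 - (Δ/p) / (p - 1))` the partial product
of the constant `C(Δ)` of Conjecture F.

(1) For every `ε > 0` there are `L` and `k₀`, which depend on `b` and `ε` only, such that for all
`k ≥ k₀`, all choices of the sets of digits, ALL odd integers `A` (of any size and sign) and all
`y ≥ b` with `y ^ L ≤ b ^ k` the number of the elements of `S(y)` is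

  `(1 + θ) · g · ∏_{i ≥ 1} |D i| · ∏_{p ∣ b, p > 2} (1 - (1 + (Δ/p)) / p)⁻¹ · 2 V(y) C(Δ, y)`, `|θ| ≤ ε`,

where `g` is the number of the last digits `d ∈ D 0` for which `d ^ 2 + d + A` is coprime to `b`.

(2) There are `r`, `k₀` and `δ > 0`, which depend on `b` only, such that for all `B`, all `k ≥ k₀`, all
sets of digits and all odd `A` with `|A| ≤ b ^ (B k)` and `g ≥ 1` at least `δ |S| / k ^ 2` of the
`x ∈ S` are such that `x ^ 2 + x + A` is not zero and has at most `r (B + 4)` prime factors.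

(3) Let `A` be odd and positive. For all `Λ` and `ε > 0` there are `L`, `y₀`, `k₀` such that for all
`k ≥ k₀`, all sets of digits, all `y ≥ y₀` with `y ^ L ≤ b ^ k`, all `T` with
`u = T · 2 V(y) C(Δ, y) ≤ Λ` and all finite sets `E` the proportion of the `x ∈ S(y)` for which the
number of the `t` in `(x, x + T]` such that `t ^ 2 + t + A` has no prime factor `≤ y` belongs to `E`
differs from `∑_{j ∈ E} exp(-u) u ^ j / j!` by at most `ε`. So the distance to the next such `t` has
the exponential distribution, and the constant of Conjecture F is seen also in the gaps.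
-/

set_option autoImplicit false

namespace Pool.Agent.Results.MP_8be758_nt.EveryADigits

open Finset Polynomial
open scoped NumberTheorySymbols

/-- The integers `0 ≤ x < b ^ k` whose `i`-th digit in base `b` belongs to `D i`, for all `i < k`. -/
def Restricted (b k : ℕ) (D : Fin k → Finset ℕ) : Finset ℕ :=
  (Finset.range (b ^ k)).filter (fun n => ∀ i : Fin k, n / b ^ (i : ℕ) % b ∈ D i)

/-- Each `D i` is a set of digits, and it has two digits `c < c'` such that every prime factor of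
`c' - c` divides `b`. -/
def DigitSets (b k : ℕ) (D : Fin k → Finset ℕ) : Prop :=
  ∀ i, (∀ d ∈ D i, d < b) ∧ ∃ c ∈ D i, ∃ c' ∈ D i, c < c' ∧
    ∀ p : ℕ, p.Prime → p ∣ c' - c → p ∣ b

/-- The value `x ^ 2 + x + A`. -/
def value (A : ℤ) (x : ℕ) : ℤ := (x : ℤ) ^ 2 + x + A

/-- `x ^ 2 + x + A` has no prime factor `≤ y`. -/
def Rough (A : ℤ) (y x : ℕ) : Prop := ∀ p : ℕ, p.Prime → p ≤ y → ¬ (p : ℤ) ∣ value A x

open Classical in
/-- The set `S(y)`. -/
noncomputable def Start (b k : ℕ) (D : Fin k → Finset ℕ) (A : ℤ) (y : ℕ) : Finset ℕ :=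
  (Restricted b k D).filter (fun n => Rough A y n)

open Classical in
/-- The number of the `t` in `(x, x + T]` such that `t ^ 2 + t + A` has no prime factor `≤ y`. -/
noncomputable def next (A : ℤ) (y T x : ℕ) : ℕ :=
  ((Finset.Ioc x (x + T)).filter (fun t => Rough A y t)).card

/-- The product of `1 - 1 / p` over the primes `p ≤ y`. -/
noncomputable def V (y : ℕ) : ℝ := ∏ p ∈ (Finset.Icc 1 y).filter Nat.Prime, (1 - 1 / (p : ℝ))

/-- The partial product of the constant `C(Δ)`, `Δ = 1 - 4 A`, of Conjecture F. -/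
noncomputable def CF (A : ℤ) (y : ℕ) : ℝ :=
  ∏ p ∈ (Finset.Icc 1 y).filter (fun p => p.Prime ∧ p ≠ 2),
    (1 - (J(1 - 4 * A | p) : ℝ) / ((p : ℝ) - 1))

/-- The number of the last digits `d` such that `d ^ 2 + d + A` is coprime to `b`. -/
def lastDigits (b k : ℕ) (D : Fin k → Finset ℕ) (A : ℤ) : ℕ :=
  (((Finset.univ : Finset (Fin k)).filter (fun i : Fin k => (i : ℕ) = 0)).biUnion
    (fun i => (D i).filter (fun d : ℕ => Int.gcd (value A d) b = 1))).card

/-- The product of the numbers of the elements of `D i` over the positions `i ≥ 1`. -/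
def otherDigits (k : ℕ) (D : Fin k → Finset ℕ) : ℕ :=
  ∏ i ∈ (Finset.univ : Finset (Fin k)).filter (fun i : Fin k => (i : ℕ) ≠ 0), (D i).card

/-- The main term. -/
noncomputable def mainTerm (b k : ℕ) (D : Fin k → Finset ℕ) (A : ℤ) (y : ℕ) : ℝ :=
  (lastDigits b k D A : ℝ) * otherDigits k D *
    (∏ p ∈ b.primeFactors.filter (fun p => p ≠ 2), (1 - (1 + (J(1 - 4 * A | p) : ℝ)) / (p : ℝ)))⁻¹ *
    (2 * V y * CF A y)

/-- The measure of `E` for the Poisson distribution with the mean `u`. -/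
noncomputable def poisson (u : ℝ) (E : Finset ℕ) : ℝ :=
  ∑ j ∈ E, Real.exp (-u) * u ^ j / (j.factorial : ℝ)

open Pool.Agent.W123.RU.Poly (Sys Q)
open Pool.Agent.H373R2.T7 Pool.Agent.W123.RP Pool.Agent.W123.RU Pool.Agent.TH464.PO
open Pool.Agent.Q263.PK

/-- the polynomial -/
noncomputable def F (A : ℤ) : ℤ[X] := C 1 * X ^ 2 + C 1 * X + C A

lemma F_eval (A : ℤ) (m : ℕ) : (F A).eval (m : ℤ) = value A m := by
  unfold F value
  rw [Gen.eval_quad]
  ring

lemma value_eq (A : ℤ) : (fun m : ℕ => (F A).eval (m : ℤ)) = value A := by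
  funext m
  exact F_eval A m

lemma per (A : ℤ) : Gen.PerG (value A) := by
  rw [← value_eq]
  exact Gen.perG_poly _

lemma odd_val (A : ℤ) (hA : Odd A) (m : ℕ) : ¬ (2 : ℤ) ∣ value A m := by
  unfold value
  intro h
  have h1 : Even ((m : ℤ) ^ 2 + m) := by
    have : (m : ℤ) ^ 2 + m = m * (m + 1) := by ring
    rw [this]
    exact Int.even_mul_succ_self _
  have h2 : Odd ((m : ℤ) ^ 2 + m + A) := h1.add_odd hA
  exact (Int.not_even_iff_odd.2 h2) (even_iff_two_dvd.2 h)

open Classical in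
/-- the number of the roots -/
lemma rho_eq (A : ℤ) (hA : Odd A) (p : ℕ) (hp : p.Prime) : (Gen.rho (value A) p : ℤ) =
    if p = 2 then 0 else 1 + J(1 - 4 * A | p) := by
  rcases eq_or_ne p 2 with rfl | h2
  · rw [if_pos rfl]
    have h1 : Gen.rho (value A) 2 = 0 := by
      unfold Gen.rho
      rw [card_eq_zero, filter_eq_empty_iff]
      intro m _
      exact_mod_cast odd_val A hA m
    exact_mod_cast h1
  · rw [if_neg h2]
    have h := Gen.rho_quad 1 1 A p hp h2 (by
      intro h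
      have h1 : p ∣ 1 := by exact_mod_cast h
      exact hp.one_lt.ne' (Nat.dvd_one.1 h1))
    have e1 : (fun m : ℕ => (1 : ℤ) * (m : ℤ) ^ 2 + 1 * m + A) = value A := by
      funext m
      unfold value
      ring
    rw [e1] at h
    rw [h]
    congr 2

lemma rho_le (A : ℤ) (hA : Odd A) (p : ℕ) (hp : p.Prime) : Gen.rho (value A) p ≤ 2 := by
  have h := rho_eq A hA p hp
  split_ifs at h with h2
  · omega
  · rcases jacobiSym.trichotomy (1 - 4 * A) p with h1 | h1 | h1 <;> rw [h1] at h <;> omega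

lemma rho_lt (A : ℤ) (hA : Odd A) (p : ℕ) (hp : p.Prime) : Gen.rho (value A) p < p := by
  rcases eq_or_ne p 2 with rfl | h2
  · have h := rho_eq A hA 2 hp
    rw [if_pos rfl] at h
    omega
  · have h := rho_le A hA p hp
    have := hp.two_le
    omega

/-- the product over all primes -/
lemma prod_all (A : ℤ) (hA : Odd A) (y : ℕ) (hy : 2 ≤ y) :
    ∏ p ∈ (Finset.Icc 1 y).filter Nat.Prime, (1 - (Gen.rho (value A) p : ℝ) / (p : ℝ)) =
    2 * V y * CF A y := by
  have e5 : CF A y = ∏ p ∈ (Finset.Icc 1 y).filter Nat.Prime,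
      (if p ≠ 2 then (1 - (J(1 - 4 * A | p) : ℝ) / ((p : ℝ) - 1)) else 1) := by
    unfold CF
    rw [← Finset.prod_filter, Finset.filter_filter]
  have e6 : (2 : ℝ) = ∏ p ∈ (Finset.Icc 1 y).filter Nat.Prime, (if p = 2 then 2 else 1) := by
    rw [Finset.prod_ite_eq' _ 2 (fun _ => (2 : ℝ)), if_pos (by
      rw [mem_filter, mem_Icc]
      exact ⟨⟨by norm_num, hy⟩, Nat.prime_two⟩)]
  rw [e5, e6]
  unfold V
  rw [← Finset.prod_mul_distrib, ← Finset.prod_mul_distrib]
  refine Finset.prod_congr rfl fun p hp => ?_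
  rw [Finset.mem_filter] at hp
  have h := rho_eq A hA p hp.2
  have h' : (Gen.rho (value A) p : ℝ) = ((if p = 2 then 0 else 1 + J(1 - 4 * A | p) : ℤ) : ℝ) := by
    rw [← h, Int.cast_natCast]
  rw [h']
  by_cases h2 : p = 2
  · rw [h2]
    norm_num
  · have h3 : (3 : ℝ) ≤ p := by
      have := hp.2.two_le
      exact_mod_cast (by omega : 3 ≤ p)
    have h4 : (p : ℝ) ≠ 0 := by linarith
    have h5 : (p : ℝ) - 1 ≠ 0 := by linarith
    rw [if_neg h2, if_neg h2, if_pos h2]
    push_cast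
    field_simp
    ring

lemma main_eq (b k : ℕ) (hb : 2 ≤ b) (D : Fin k → Finset ℕ) (A : ℤ) (hA : Odd A) (y : ℕ) (hby : b ≤ y) :
    Gen.mainTerm b k D (value A) y = mainTerm b k D A y := by
  unfold Gen.mainTerm mainTerm
  have e1 : ∏ p ∈ (Finset.Icc 1 y).filter (fun p => p.Prime ∧ ¬ p ∣ b),
      (1 - (Gen.rho (value A) p : ℝ) / (p : ℝ)) =
      (∏ p ∈ b.primeFactors.filter (fun p => p ≠ 2),
        (1 - (1 + (J(1 - 4 * A | p) : ℝ)) / (p : ℝ)))⁻¹ * (2 * V y * CF A y) := by
    rw [← prod_all A hA y (by omega)]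
    have h2 : b.primeFactors ⊆ (Finset.Icc 1 y).filter Nat.Prime := by
      intro p hp
      rw [Nat.mem_primeFactors] at hp
      rw [mem_filter, mem_Icc]
      have := Nat.le_of_dvd (by omega) hp.2.1
      exact ⟨⟨hp.1.one_lt.le, by omega⟩, hp.1⟩
    have h3 : (Finset.Icc 1 y).filter (fun p => p.Prime ∧ ¬ p ∣ b) =
        (Finset.Icc 1 y).filter Nat.Prime \ b.primeFactors := by
      ext p
      rw [mem_filter, mem_sdiff, mem_filter, mem_Icc, Nat.mem_primeFactors]
      constructor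
      · rintro ⟨h4, h5, h6⟩
        exact ⟨⟨h4, h5⟩, fun h => h6 h.2.1⟩
      · rintro ⟨⟨h4, h5⟩, h6⟩
        exact ⟨h4, h5, fun h => h6 ⟨h5, h, by omega⟩⟩
    have h5 : ∏ p ∈ b.primeFactors, (1 - (Gen.rho (value A) p : ℝ) / (p : ℝ)) =
        ∏ p ∈ b.primeFactors.filter (fun p => p ≠ 2), (1 - (1 + (J(1 - 4 * A | p) : ℝ)) / (p : ℝ)) := by
      rw [Finset.prod_filter]
      apply prod_congr rfl
      intro p hp
      have h := rho_eq A hA p (Nat.prime_of_mem_primeFactors hp)
      have h' : (Gen.rho (value A) p : ℝ) = ((if p = 2 then 0 else 1 + J(1 - 4 * A | p) : ℤ) : ℝ) := by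
        rw [← h, Int.cast_natCast]
      rw [h']
      by_cases h2 : p = 2
      · rw [if_pos h2, if_neg (by simpa using h2)]
        norm_num
      · rw [if_neg h2, if_pos h2]
        push_cast
        ring
    rw [← h5, h3, ← prod_sdiff h2]
    have h4 : ∏ p ∈ b.primeFactors, (1 - (Gen.rho (value A) p : ℝ) / (p : ℝ)) ≠ 0 := by
      apply prod_ne_zero_iff.2
      intro p hp
      have hpp := Nat.prime_of_mem_primeFactors hp
      have hp0 : (0 : ℝ) < p := by exact_mod_cast hpp.pos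
      have : (Gen.rho (value A) p : ℝ) / p < 1 := by
        rw [div_lt_one hp0]
        exact_mod_cast rho_lt A hA p hpp
      linarith
    field_simp
  rw [e1]
  change (lastDigits b k D A : ℝ) * otherDigits k D * _ = _
  ring

lemma F_sys (A : ℤ) (hA : Odd A) (hA0 : 0 < A) : Sys (fun _ : Fin 1 => F A) := by
  refine ⟨fun _ => ?_, fun _ => ?_, fun _ => ?_, fun i j _ => Subsingleton.elim i j, ?_⟩
  · unfold F
    apply Gen.irr_quad 1 1 A (by norm_num) ⟨1, 0, 0, by norm_num⟩
    rintro ⟨r, hr⟩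
    nlinarith [mul_self_nonneg r]
  · unfold F
    rw [Gen.deg_quad 1 1 A (by norm_num)]
    norm_num
  · unfold F
    rw [Gen.lead_quad 1 1 A (by norm_num)]
    norm_num
  · intro p hp
    have h := rho_lt A hA p hp
    by_contra hcon
    push Not at hcon
    classical
    have h1 : (range p).filter (fun r => (p : ℤ) ∣ value A r) = range p := by
      rw [filter_eq_self]
      intro r _
      obtain ⟨_, hi⟩ := hcon r
      rwa [F_eval] at hi
    unfold Gen.rho at h
    have h2 : ((range p).filter (fun r => (p : ℤ) ∣ value A r)).card = p := by rw [h1, card_range]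
    have h3 : ((range p).filter (fun r => (p : ℤ) ∣ value A r)).card < p := by
      convert h
    omega

lemma Q_iff (A : ℤ) (p m : ℕ) : Q (fun _ : Fin 1 => F A) p m ↔ (p : ℤ) ∣ value A m := by
  unfold Q
  constructor
  · rintro ⟨_, h⟩
    rwa [F_eval] at h
  · intro h
    refine ⟨0, ?_⟩
    rwa [F_eval]

open Classical in
theorem result : ∀ b : ℕ, 2 ≤ b →
    (∀ ε : ℝ, 0 < ε → ∃ L k₀ : ℕ, 1 ≤ L ∧ ∀ k : ℕ, k₀ ≤ k →
      ∀ D : Fin k → Finset ℕ, DigitSets b k D → ∀ A : ℤ, Odd A → ∀ y : ℕ, b ≤ y → y ^ L ≤ b ^ k →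
      |((Start b k D A y).card : ℝ) - mainTerm b k D A y| ≤ ε * mainTerm b k D A y) ∧
    (∃ (r k₀ : ℕ) (δ : ℝ), 0 < δ ∧ ∀ B : ℕ, ∀ k : ℕ, k₀ ≤ k →
      ∀ D : Fin k → Finset ℕ, DigitSets b k D → ∀ A : ℤ, Odd A → A.natAbs ≤ b ^ (B * k) →
      1 ≤ lastDigits b k D A →
      δ * (Restricted b k D).card / (k : ℝ) ^ 2 ≤
        (((Restricted b k D).filter (fun m : ℕ => value A m ≠ 0 ∧
          (value A m).natAbs.primeFactorsList.length ≤ r * (B + 4))).card : ℝ)) ∧
    (∀ A : ℤ, Odd A → 0 < A → ∀ Λ ε : ℝ, 0 < ε →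
      ∃ L y₀ k₀ : ℕ, 1 ≤ L ∧ ∀ k : ℕ, k₀ ≤ k → ∀ D : Fin k → Finset ℕ, DigitSets b k D →
      ∀ y : ℕ, y₀ ≤ y → y ^ L ≤ b ^ k → ∀ T : ℕ, T * (2 * V y * CF A y) ≤ Λ → ∀ E : Finset ℕ,
        |(((Start b k D A y).filter (fun m => next A y T m ∈ E)).card : ℝ) -
          (Start b k D A y).card * poisson (T * (2 * V y * CF A y)) E| ≤
            ε * (Start b k D A y).card) := by
  intro b hb
  refine ⟨?_, ?_, ?_⟩
  · intro ε hε
    obtain ⟨L, k₀, hL, h⟩ := Gen.count hb 2 ε hε
    refine ⟨L, k₀, hL, fun k hk D hD A hA y hby hy => ?_⟩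
    have h1 := h k hk D hD (value A) (per A) (rho_le A hA) y hby hy
    rw [main_eq b k hb D A hA y hby] at h1
    exact h1
  · obtain ⟨r, k₀, δ, hδ, h⟩ := Gen.almost hb 2
    refine ⟨r, k₀ + 1, δ, hδ, fun B k hk D hD A hA hAB hg => ?_⟩
    exact h (B + 4) k (by omega) D hD (value A) (per A) (rho_le A hA) (rho_lt A hA) (fun m hm => by
      unfold value
      have h1 : ((m : ℤ) ^ 2 + m + A).natAbs ≤ m ^ 2 + m + A.natAbs := by
        refine (Int.natAbs_add_le _ _).trans (Nat.add_le_add_right ((Int.natAbs_add_le _ _).trans ?_) _)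
        rw [Int.natAbs_pow, Int.natAbs_natCast]
      refine h1.trans ?_
      have h2 : m ^ 2 + m ≤ b ^ (3 * k) := by
        have h3 : 2 ≤ b ^ k := hb.trans (Nat.le_self_pow (by omega) b)
        calc m ^ 2 + m ≤ (b ^ k) ^ 2 + b ^ k := by
              have := Nat.pow_le_pow_left hm.le 2
              omega
          _ ≤ b ^ k * (b ^ k) ^ 2 := by nlinarith [Nat.pow_le_pow_left h3 2]
          _ = b ^ (3 * k) := by
            rw [← pow_succ', ← pow_mul]
            congr 1
            ring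
      have h3 : 1 ≤ b ^ (3 * k) := Nat.one_le_pow _ _ (by omega)
      have h4 : 1 ≤ b ^ (B * k) := Nat.one_le_pow _ _ (by omega)
      have h5 : 2 ≤ b ^ k := hb.trans (Nat.le_self_pow (by omega) b)
      have h6 : b ^ (3 * k) + b ^ (B * k) ≤ 2 * (b ^ (3 * k) * b ^ (B * k)) := by nlinarith
      calc m ^ 2 + m + A.natAbs ≤ b ^ (3 * k) + b ^ (B * k) := add_le_add h2 hAB
        _ ≤ 2 * (b ^ (3 * k) * b ^ (B * k)) := h6
        _ ≤ b ^ k * (b ^ (3 * k) * b ^ (B * k)) := Nat.mul_le_mul_right _ h5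
        _ = b ^ ((B + 4) * k) := by
          rw [← pow_add, ← pow_add]
          congr 1
          ring) hg
  · intro A hA hA0 Λ ε hε
    have hNoTr := noTr_single (F A) (by unfold F; rw [Gen.deg_quad 1 1 A (by norm_num)]; norm_num)
    obtain ⟨L, y₀, k₀, hL, h⟩ := Gen.law hb (fun _ : Fin 1 => F A) (F_sys A hA hA0)
      (fun _ : Fin 1 => F A) (F_sys A hA hA0) hNoTr (fun i j t ht => hNoTr i j t ht) (value A) (value A)
      (fun p m _ => Q_iff A p m) (fun p m _ => Q_iff A p m) Λ ε hε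
    refine ⟨L, max y₀ 2, k₀, hL, fun k hk D hD y hy hyL => ?_⟩
    have h1 := (h k hk D hD y ((le_max_left _ _).trans hy) hyL).2
    have h2 : Gen.dens (value A) y = 2 * V y * CF A y := by
      unfold Gen.dens
      exact prod_all A hA y ((le_max_right _ _).trans hy)
    rw [h2] at h1
    exact h1

end Pool.Agent.Results.MP_8be758_nt.EveryADigits
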