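import Mathlib
import Pool.Agent.Q91.RP.Fin

/-!
Rough values of `x ^ 2 + x + A` with prescribed completely multiplicative signs.
-/

set_option autoImplicit false
set_option maxHeartbeats 400000

namespace Pool.Agent.Results.MP_8be758_nt.RoughParityAllSigns

open Finset Pool.Agent.Q91.RP

/-- `g` is completely multiplicative on the positive integers, with values `1` and `-1` -/
def SignFunction (g : ℕ → ℤ) : Prop :=
  (∀ n : ℕ, n ≠ 0 → g n = 1 ∨ g n = -1) ∧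
    ∀ m n : ℕ, m ≠ 0 → n ≠ 0 → g (m * n) = g m * g n

/-- `M` has at most `K` prime factors, counted with multiplicity, all larger than `X ^ (1 / K)` -/
def Rough (K X M : ℕ) : Prop :=
  M.primeFactorsList.length ≤ K ∧ ∀ p : ℕ, p.Prime → p ∣ M → X < p ^ K

/-- the `1 ≤ n ≤ X` with `n ^ 2 + n + A = r * M`, `M` rough, `g M = e` -/
def T (A r K X : ℕ) (g : ℕ → ℤ) (e : ℤ) : Set ℕ :=
  {n : ℕ | 1 ≤ n ∧ n ≤ X ∧ ∃ M : ℕ, n ^ 2 + n + A = r * M ∧ g M = e ∧ Rough K X M}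

theorem result : ∃ K : ℕ, ∀ A : ℕ, Odd A → ∃ X0 : ℕ, ∀ X : ℕ, X0 ≤ X → ∀ g : ℕ → ℤ,
    SignFunction g →
    (X : ℝ) / Real.log X ^ K ≤ (Set.ncard (T A 1 K X g 1) : ℝ) ∨
    (3 ∣ A ∧ (X : ℝ) / Real.log X ^ K ≤ (Set.ncard (T A 1 K X g (-1)) : ℝ) ∧
      (X : ℝ) / Real.log X ^ K ≤ (Set.ncard (T A 3 K X g 1) : ℝ) ∧
      (X : ℝ) / Real.log X ^ K ≤ (Set.ncard (T A 3 K X g (-1)) : ℝ)) := by
  classical
  obtain ⟨K, hK⟩ := engine_shift
  refine ⟨K, ?_⟩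
  intro A hA
  have hA1 : 1 ≤ A := hA.pos
  have hA1' : (1 : ℤ) ≤ A := by exact_mod_cast hA1
  have hAodd : Odd (A : ℤ) := by exact_mod_cast hA
  have hf : ∀ N : ℕ, (fun n : ℕ => ((n ^ 2 + n + A : ℕ) : ℤ)) (N + 0) =
      Pool.Agent.H505R2.fm 1 A 1 (N : ℤ) := by
    intro N
    unfold Pool.Agent.H505R2.fm
    push_cast
    ring
  have conv : ∀ (r X : ℕ) (g : ℕ → ℤ) (e : ℤ) (y : ℝ),
      y ≤ ((TF (fun n : ℕ => ((n ^ 2 + n + A : ℕ) : ℤ)) r K X g e).card : ℝ) →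
      y ≤ (Set.ncard (T A r K X g e) : ℝ) := by
    intro r X g e y hy
    refine hy.trans ?_
    have hsub : ((TF (fun n : ℕ => ((n ^ 2 + n + A : ℕ) : ℤ)) r K X g e : Finset ℕ) : Set ℕ) ⊆
        T A r K X g e := by
      intro n hn
      unfold TF at hn
      rw [mem_coe, mem_filter, mem_Icc] at hn
      obtain ⟨⟨h1, h2⟩, M, h5, h3, h6, h7⟩ := hn
      dsimp only at h5
      exact ⟨h1, h2, M, by exact_mod_cast h5, h3, h6, h7⟩
    have hfin : Set.Finite (T A r K X g e) := (Set.finite_Iic X).subset (fun k hk => hk.2.1)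
    rw [← Set.ncard_coe_finset]
    exact_mod_cast Set.ncard_le_ncard hsub hfin
  by_cases h3 : 3 ∣ A
  · obtain ⟨w, D⟩ := loc_A3 hA1' hAodd (by exact_mod_cast h3)
    obtain ⟨X0, hX0⟩ := hK _ _ _ _ _ D (fun n : ℕ => ((n ^ 2 + n + A : ℕ) : ℤ)) 0 hf
    refine ⟨X0, ?_⟩
    intro X hX g hg
    obtain ⟨⟨e, f, he, hf', h1, h2, h4⟩, -⟩ := hX0 X hX g ⟨hg.1, hg.2⟩
    rcases he with rfl | rfl
    · left
      exact conv _ _ _ _ _ h1
    · right
      refine ⟨h3, conv _ _ _ _ _ h1, ?_⟩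
      rcases hf' with rfl | rfl
      · exact ⟨conv _ _ _ _ _ h2, conv _ _ _ _ _ (by simpa using h4)⟩
      · exact ⟨conv _ _ _ _ _ (by simpa using h4), conv _ _ _ _ _ h2⟩
  · obtain ⟨w, D⟩ := loc_A hA1' hAodd (by
      intro h
      exact h3 (by exact_mod_cast h))
    obtain ⟨X0, hX0⟩ := hK _ _ _ _ _ D (fun n : ℕ => ((n ^ 2 + n + A : ℕ) : ℤ)) 0 hf
    refine ⟨X0, ?_⟩
    intro X hX g hg
    obtain ⟨⟨e, f, he, hf', h1, h2, h4⟩, -⟩ := hX0 X hX g ⟨hg.1, hg.2⟩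
    left
    rcases he with rfl | rfl
    · exact conv _ _ _ _ _ h1
    · rcases hf' with rfl | rfl
      · exact conv _ _ _ _ _ h2
      · exact conv _ _ _ _ _ (by simpa using h4)

end Pool.Agent.Results.MP_8be758_nt.RoughParityAllSigns
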