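import Pool.Agent.Q106.ST.Cor
import Pool.Agent.Q120.GM.Exists

/-!
# MP_8be758_nt: the exact error in the Bateman-Horn formula for all systems of polynomials, in the sieved models

The sieved model of level `Q`: a random set `A` which contains the integers `n` coprime to `Q` independently with
probability `(Q / φ(Q)) / log n` (at most `1`), and no others (`IsModel μ (level Q) A`; `Q = 1` is Cramér's model).

For a finite set `F` of polynomials (`PSys F`: not empty, all of them of degree at least one with positive leading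
coefficient) let `count A F x` be the number of the `m < x` such that all values `f(m)`, `f ∈ F`, are in `A`, and
`predicted Q F x` the product of the singular series of level `Q` and of the sum over `m < x` of the products of the
`1 / log f(m)`. The path at the scale `x` is `t ↦ (count (t x) - predicted (t x)) / √(2 · predicted (x) · log log x)`,
`0 ≤ t ≤ 1`. Almost surely, for all systems `F` and for all finite families of systems without common sets of values at
large arguments, the limit set of the (vectors of the) paths in the uniform norm is Strassen's ball.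

For `F = {X ^ 2 + X + a}`, `a` odd, the singular series is positive at all levels, and for `Q` the product of the primes up to
`z ≥ 2` it is twice the partial product of the constant `C(1 - 4 a)` of Hardy and Littlewood.
-/

set_option autoImplicit false

namespace Pool.Agent.Results.MP_8be758_nt.StrassenLawAllSystems

open Finset MeasureTheory Filter Polynomial
open scoped Topology NumberTheorySymbols
open Pool.Agent.Q120.GM (IsModel level prodMeasure trueSet)
open Pool.Agent.Q106.ST (series PSys Apart count predicted path)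
open Pool.Agent.Q106.FL (Energy Near)

/-- The law. -/
structure Law (Q : ℕ) (A : Set ℕ) : Prop where
  /-- The asymptotic formula. -/
  asymptotic : ∀ F : Finset ℤ[X], PSys F → 0 < series Q F →
    Tendsto (fun x : ℕ => count A F x / predicted Q F x) atTop (𝓝 1)
  /-- The exact order of the error. -/
  iterated : ∀ F : Finset ℤ[X], PSys F → 0 < series Q F → ∀ c : ℝ,
    MapClusterPt c atTop (fun x : ℕ => (count A F x - predicted Q F x) /
      √(2 * predicted Q F x * Real.log (Real.log x))) ↔ |c| ≤ 1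
  /-- All vectors of paths are near Strassen's ball. -/
  near : ∀ (r : ℕ) (F : Fin r → Finset ℤ[X]), (∀ i, PSys (F i)) → (∀ i, 0 < series Q (F i)) →
    (∀ i j, i ≠ j → Apart (F i) (F j)) → ∀ ε > 0, ∀ᶠ x in atTop,
      ∃ φ e, e ≤ 1 ∧ Energy φ e ∧ Near ε (fun i t => path A Q (F i) x t) φ
  /-- All elements of Strassen's ball are approximated. -/
  dense : ∀ (r : ℕ) (F : Fin r → Finset ℤ[X]), (∀ i, PSys (F i)) → (∀ i, 0 < series Q (F i)) →
    (∀ i j, i ≠ j → Apart (F i) (F j)) → ∀ φ e, e ≤ 1 → Energy φ e → ∀ ε > 0,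
      ∃ᶠ x in atTop, Near ε (fun i t => path A Q (F i) x t) φ

/-- **Strassen's law for the Bateman-Horn counts of all systems of polynomials.** -/
theorem result :
    (∀ Q : ℕ, IsModel (prodMeasure (level Q)) (level Q) (trueSet (ι := ℕ))) ∧
    (∀ a : ℤ, Odd a → (∀ Q : ℕ, 1 ≤ Q → 0 < series Q {X ^ 2 + X + C a}) ∧
      ∀ z : ℕ, 2 ≤ z → series (primorial z) {X ^ 2 + X + C a} =
        2 * ∏ p ∈ (range (z + 1)).filter (fun p => p.Prime ∧ p ≠ 2), (1 - (J(1 - 4 * a | p) : ℝ) / ((p : ℝ) - 1))) ∧
    (∀ g : ℤ[X], 2 ≤ g.natDegree → 0 < g.leadingCoeff → ∀ H H' : Finset ℤ, H.Nonempty → H'.Nonempty → H ≠ H' →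
      Apart (H.image (fun h => g + C h)) (H'.image (fun h => g + C h))) ∧
    ∀ (Ω : Type) (_ : MeasurableSpace Ω) (μ : Measure Ω) (_ : IsProbabilityMeasure μ) (A : Ω → Set ℕ) (Q : ℕ),
      1 ≤ Q → IsModel μ (level Q) A → ∀ᵐ ω ∂μ, Law Q (A ω) := by
  refine ⟨fun Q => Pool.Agent.Q120.GM.isModel (level Q) (Pool.Agent.Q120.GM.level_nonneg Q) (Pool.Agent.Q120.GM.level_le_one Q),
    fun a ha => ⟨fun Q hQ => Pool.Agent.Q106.ST.series_pos ha hQ, fun z hz => Pool.Agent.Q106.ST.series_prim ha hz⟩,
    fun g hd hf H H' h1 h2 h3 => Pool.Agent.Q106.ST.apart_shifts hd hf h1 h2 h3, ?_⟩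
  intro Ω _ μ _ A Q hQ hA
  haveI := Pool.Agent.Q106.GMM.countable_poly
  have h1 : ∀ᵐ ω ∂μ, ∀ F : Finset ℤ[X], PSys F → 0 < series Q F →
      Tendsto (fun x : ℕ => count (A ω) F x / predicted Q F x) atTop (𝓝 1) ∧
      ∀ c : ℝ, MapClusterPt c atTop (fun x : ℕ => (count (A ω) F x - predicted Q F x) /
        √(2 * predicted Q F x * Real.log (Real.log x))) ↔ |c| ≤ 1 := by
    rw [ae_all_iff]
    intro F
    by_cases h : PSys F ∧ 0 < series Q F
    · filter_upwards [Pool.Agent.Q106.ST.one_system hQ hA h.1 h.2] with ω hω _ _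
      exact hω
    · filter_upwards with ω h2 h3
      exact absurd ⟨h2, h3⟩ h
  have h2 : ∀ᵐ ω ∂μ, ∀ (r : ℕ) (F : Fin r → Finset ℤ[X]), (∀ i, PSys (F i)) → (∀ i, 0 < series Q (F i)) →
      (∀ i j, i ≠ j → Apart (F i) (F j)) →
      (∀ ε > 0, ∀ᶠ x in atTop, ∃ φ e, e ≤ 1 ∧ Energy φ e ∧ Near ε (fun i t => path (A ω) Q (F i) x t) φ) ∧
      ∀ φ e, e ≤ 1 → Energy φ e → ∀ ε > 0, ∃ᶠ x in atTop, Near ε (fun i t => path (A ω) Q (F i) x t) φ := by
    rw [ae_all_iff]
    intro r
    rw [ae_all_iff]
    intro F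
    by_cases h : (∀ i, PSys (F i)) ∧ (∀ i, 0 < series Q (F i)) ∧ ∀ i j, i ≠ j → Apart (F i) (F j)
    · filter_upwards [Pool.Agent.Q106.ST.poly_strassen hQ hA h.1 h.2.1 h.2.2] with ω hω _ _ _
      exact hω
    · filter_upwards with ω h3 h4 h5
      exact absurd ⟨h3, h4, h5⟩ h
  filter_upwards [h1, h2] with ω hω1 hω2
  exact ⟨fun F a b => (hω1 F a b).1, fun F a b => (hω1 F a b).2, fun r F a b c => (hω2 r F a b c).1,
    fun r F a b c => (hω2 r F a b c).2⟩

end Pool.Agent.Results.MP_8be758_nt.StrassenLawAllSystems
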