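import Pool.Agent.Q117.TF.Quad
import Pool.Agent.Q117.CB.Fam
import Pool.Agent.Q253.Cov.QuadF

/-!
# The numbers `n ^ 2 + n + A` with one prime factor from a thin set

For every `ε > 0` there is ONE set `Q` of primes with `O(log ^ 3 x)` elements up to `x` such that (1) for all but at most `X ^ (5/3 + ε)`
of the odd integers `|A| ≤ X ^ 2` the numbers `|n ^ 2 + n + A|`, `n ≤ X`, are primes with at least the expected frequency, or for one
`q ∈ Q` they are `q` times a prime with at least the expected frequency; (2) for EVERY odd `A` for which `1 - 4 A` is not a square, and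
all large `X`, the same holds with `q` times a number with at most two prime factors.

Libraries (starting files): `Y882.PY.engine` (almost primes for all but few constant terms), `Y882.KW` (weighted sieve),
`H474R2.GE.mertens_rho`; the thin set is found as in `MP_391708_nt.ThinFactors`.
-/

set_option autoImplicit false

namespace Pool.Agent.Results.MP_8be758_nt.ThinFactors

open Finset Filter
open Pool.Agent.Q117.TF (qv Zq Zq_ro Zq_sys Zq_card_lt quad_thin deg2 KF2 qv_le)
open Pool.Agent.Q117.CB (len_le)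
open Pool.Agent.Q253.Thin (VZ_low)
open Pool.Agent.Y843.HS (Pr VV)

/-- the number of the classes `n` modulo `q` with `q ∣ n ^ 2 + n + a` -/
def rho (a : ℤ) (q : ℕ) : ℕ := ((range q).filter (fun n : ℕ => (q : ℤ) ∣ (n : ℤ) ^ 2 + n + a)).card

/-- the product of the `1 - rho a p / p` over the primes `p ≤ X` -/
noncomputable def dens (a : ℤ) (X : ℕ) : ℝ := ∏ p ∈ (Icc 1 X).filter Nat.Prime, (1 - (rho a p : ℝ) / p)

/-- the number of the `1 ≤ n ≤ X` with `|n ^ 2 + n + a|` prime -/
def primeValues (a : ℤ) (X : ℕ) : ℕ := ((Icc 1 X).filter (fun n : ℕ => ((n : ℤ) ^ 2 + n + a).natAbs.Prime)).card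

open Classical in
/-- the number of the `1 ≤ n ≤ X` with `|n ^ 2 + n + a| = q m`, `m ≥ 2` having at most `r` prime factors (with multiplicity), all
`≥ q` -/
noncomputable def withFactor (a : ℤ) (q r X : ℕ) : ℕ :=
  ((Icc 1 X).filter (fun n : ℕ => ∃ m : ℕ, 2 ≤ m ∧ ((n : ℤ) ^ 2 + n + a).natAbs = q * m ∧ m.primeFactorsList.length ≤ r ∧
    ∀ p : ℕ, p.Prime → p ∣ m → q ≤ p)).card

lemma rho_eq (a : ℤ) (q : ℕ) : rho a q = (Zq a q).card := by
  unfold rho Zq qv
  congr 1
  apply filter_congr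
  intro n _
  exact Int.natCast_dvd

lemma dens_eq (a : ℤ) (X : ℕ) : dens a X = VV (Zq a) 0 X := by
  unfold dens VV Pr
  have h : (Icc 1 X).filter Nat.Prime = (Ioc 0 X).filter Nat.Prime := by
    ext p
    simp only [mem_filter, mem_Icc, mem_Ioc]
    constructor
    · rintro ⟨⟨h1, h2⟩, h3⟩
      exact ⟨⟨by omega, h2⟩, h3⟩
    · rintro ⟨⟨h1, h2⟩, h3⟩
      exact ⟨⟨by omega, h2⟩, h3⟩
  rw [h]
  apply prod_congr rfl
  intro p _
  rw [rho_eq]

open Classical in
/-- the sieved sets: `t = 0`: prime factors `> (3 X ^ 2) ^ (1/3)`, `t = 1`: at most three prime factors, all `≥ X ^ (1/6)` -/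
noncomputable def GS (t : Bool) (X : ℕ) (a : ℤ) : Finset ℕ :=
  (Icc 1 X).filter (fun n : ℕ => 2 ≤ qv a n ∧
    (t = false → ∀ q : ℕ, q.Prime → q ∣ qv a n → 3 * X ^ 2 < q ^ 3) ∧
    (t = true → (qv a n).primeFactorsList.length ≤ 3 ∧ ∀ q : ℕ, q.Prime → q ∣ qv a n → (X : ℝ) ^ (1 / 6 : ℝ) ≤ q))

open Classical in
theorem family (ε : ℝ) (hε : 0 < ε) : ∃ δ : ℝ, 0 < δ ∧ ∃ X₀ : ℕ, ∀ X : ℕ, X₀ ≤ X → ∃ E : Finset ℤ, (E.card : ℝ) ≤ (X : ℝ) ^ (5 / 3 + ε) ∧
    ∀ a : ℤ, |a| ≤ (X : ℤ) ^ 2 → a ∉ E → δ * (X * dens a X) ≤ ((GS false X a).card : ℝ) := by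
  obtain ⟨η, hη⟩ : ∃ η, η = min (ε / 20) (1 / 100) := ⟨_, rfl⟩
  have hη0 : 0 < η := by rw [hη]; positivity
  have hη1 : η ≤ ε / 20 := by rw [hη]; exact min_le_left _ _
  have hη2 : η ≤ 1 / 100 := by rw [hη]; exact min_le_right _ _
  obtain ⟨δ, hδ, Y0, H⟩ := Pool.Agent.Y882.PY.engine 2 (1 / 2) (1 / 3 + η) 1 η (by norm_num) (by positivity) (by linarith) (by norm_num)
    le_rfl hη0
  have ev1 : ∀ᶠ X : ℕ in atTop, (3 : ℝ) ≤ (X : ℝ) ^ (ε / 2) :=
    ((tendsto_rpow_atTop (by linarith)).comp tendsto_natCast_atTop_atTop).eventually_ge_atTop _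
  have ev2 : ∀ᶠ X : ℕ in atTop, (4 : ℝ) ≤ (X : ℝ) ^ (6 * η) :=
    ((tendsto_rpow_atTop (by linarith)).comp tendsto_natCast_atTop_atTop).eventually_ge_atTop _
  obtain ⟨X1, hX1⟩ := eventually_atTop.1 (ev1.and ev2)
  refine ⟨δ, hδ, max (max Y0 X1) 2, ?_⟩
  intro X hX
  have hXY : Y0 ≤ X := ((le_max_left _ _).trans (le_max_left _ _)).trans hX
  obtain ⟨e1, e2⟩ := hX1 X (((le_max_right _ _).trans (le_max_left _ _)).trans hX)
  have hX2 : 2 ≤ X := (le_max_right _ _).trans hX
  have hXr : (2 : ℝ) ≤ X := by exact_mod_cast hX2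
  have hX0 : (0 : ℝ) < X := by linarith
  have hX1r : (1 : ℝ) ≤ X := by linarith
  have hpow : ∀ s : ℝ, ((X ^ 2 : ℕ) : ℝ) ^ s = (X : ℝ) ^ (2 * s) := by
    intro s
    push_cast
    rw [← Real.rpow_natCast, ← Real.rpow_mul hX0.le]
    norm_num
  have hβ : ((X ^ 2 : ℕ) : ℝ) ^ (1 / 2 : ℝ) ≤ X := by
    rw [hpow]
    norm_num
  have h1 := H (X ^ 2) (by nlinarith) (Polynomial.X ^ 2 + Polynomial.X) (X ^ 2) X X (by rw [deg2]; norm_num) KF2 (by rw [Real.rpow_one]) hβ hβ
  refine ⟨(Icc (-((X ^ 2 : ℕ) : ℤ)) ((X ^ 2 : ℕ) : ℤ)).filter (fun k =>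
      ((Pool.Agent.Y882.PY.goodz (Polynomial.X ^ 2 + Polynomial.X) k X (((X ^ 2 : ℕ) : ℝ) ^ (1 / 3 + η))).card : ℝ) <
        δ * X * Pool.Agent.Y882.PX.loc (Polynomial.X ^ 2 + Polynomial.X) k X), ?_, ?_⟩
  · refine h1.trans ?_
    rw [hpow, hpow, hpow]
    have hmax : max (2 * (1 : ℝ) / 3) (1 / 3 + η) = 2 / 3 := by
      rw [max_eq_left (by linarith)]
      norm_num
    rw [hmax]
    have h2 : (X : ℝ) ^ (2 * (2 / 3 + η)) ≤ (X : ℝ) ^ (5 / 3 + ε / 2) :=
      Real.rpow_le_rpow_of_exponent_le hX1r (by linarith)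
    have h3 : (((X ^ 2 : ℕ) : ℝ) + (X : ℝ) ^ (2 * (4 * (1 / 3 + η)))) / X * (X : ℝ) ^ (2 * η) ≤ 2 * (X : ℝ) ^ (5 / 3 + ε / 2) := by
      have h4 : ((X ^ 2 : ℕ) : ℝ) ≤ (X : ℝ) ^ (2 * (4 * (1 / 3 + η))) := by
        push_cast
        rw [← Real.rpow_natCast]
        apply Real.rpow_le_rpow_of_exponent_le hX1r
        push_cast
        linarith
      have h5 : (((X ^ 2 : ℕ) : ℝ) + (X : ℝ) ^ (2 * (4 * (1 / 3 + η)))) / X ≤ 2 * (X : ℝ) ^ (2 * (4 * (1 / 3 + η)) - 1) := by
        rw [div_le_iff₀ hX0]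
        have h6 : (X : ℝ) ^ (2 * (4 * (1 / 3 + η)) - 1) * X = (X : ℝ) ^ (2 * (4 * (1 / 3 + η))) := by
          nth_rewrite 2 [← Real.rpow_one (X : ℝ)]
          rw [← Real.rpow_add hX0]
          congr 1
          ring
        rw [mul_assoc, h6]
        linarith
      calc _ ≤ 2 * (X : ℝ) ^ (2 * (4 * (1 / 3 + η)) - 1) * (X : ℝ) ^ (2 * η) :=
            mul_le_mul_of_nonneg_right h5 (by positivity)
        _ = 2 * (X : ℝ) ^ (2 * (4 * (1 / 3 + η)) - 1 + 2 * η) := by
            rw [mul_assoc, ← Real.rpow_add hX0]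
        _ ≤ _ := by
            apply mul_le_mul_of_nonneg_left _ (by norm_num)
            apply Real.rpow_le_rpow_of_exponent_le hX1r
            linarith
    calc _ ≤ (X : ℝ) ^ (5 / 3 + ε / 2) + 2 * (X : ℝ) ^ (5 / 3 + ε / 2) := add_le_add h2 h3
      _ = 3 * (X : ℝ) ^ (5 / 3 + ε / 2) := by ring
      _ ≤ (X : ℝ) ^ (ε / 2) * (X : ℝ) ^ (5 / 3 + ε / 2) := mul_le_mul_of_nonneg_right e1 (by positivity)
      _ = _ := by
          rw [← Real.rpow_add hX0]
          congr 1
          ring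
  · intro a ha hE
    rw [mem_filter, not_and, not_lt] at hE
    have h2 := abs_le.1 ha
    have h3 := hE (by
      rw [mem_Icc]
      push_cast
      exact ⟨h2.1, h2.2⟩)
    have hloc : Pool.Agent.Y882.PX.loc (Polynomial.X ^ 2 + Polynomial.X) a X = dens a X := by
      unfold Pool.Agent.Y882.PX.loc dens
      apply prod_congr rfl
      intro p _
      rw [rho_eq, Zq_ro]
    rw [hloc, mul_assoc] at h3
    refine h3.trans ?_
    apply Nat.cast_le.2
    apply card_le_card
    intro n hn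
    unfold Pool.Agent.Y882.PY.goodz at hn
    rw [mem_filter, Polynomial.eval_add, Polynomial.eval_pow, Polynomial.eval_X] at hn
    obtain ⟨n1, n2, n3⟩ := hn
    unfold GS
    rw [mem_filter]
    refine ⟨n1, ?_, ?_, fun h => absurd h (by simp)⟩
    · unfold qv
      have h4 : (1 : ℤ) < (((n : ℤ) ^ 2 + n + a).natAbs : ℤ) := by
        rw [Int.natCast_natAbs]
        exact n2
      exact_mod_cast h4
    · intro _ q hq hqd
      have h4 := n3 q hq (by
        rw [Int.natCast_dvd]
        exact hqd)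
      rw [hpow] at h4
      have h5 : (3 * X ^ 2 : ℝ) < (q : ℝ) ^ 3 := by
        calc (3 * X ^ 2 : ℝ) < 4 * (X : ℝ) ^ 2 := by
              have : 0 < (X : ℝ) ^ 2 := by positivity
              linarith
          _ ≤ (X : ℝ) ^ (6 * η) * (X : ℝ) ^ 2 := mul_le_mul_of_nonneg_right e2 (by positivity)
          _ = ((X : ℝ) ^ (2 * (1 / 3 + η))) ^ 3 := by
              rw [← Real.rpow_natCast, ← Real.rpow_natCast, ← Real.rpow_add hX0, ← Real.rpow_mul hX0.le]
              congr 1
              push_cast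
              ring
          _ ≤ _ := pow_le_pow_left₀ (by positivity) h4 3
      exact_mod_cast h5

open Classical in
theorem dens_fixed (a : ℤ) (ha : Odd a) (hD : ¬ IsSquare (1 - 4 * a)) : ∃ c : ℝ, 0 < c ∧ ∀ X : ℕ, 3 ≤ X →
    c / Real.log X ≤ dens a X := by
  obtain ⟨c, hc, H⟩ := Pool.Agent.Y882.SI.lo_quad (-(1 - 4 * a)) (by rw [neg_neg]; exact hD)
  refine ⟨c, hc, fun X hX => (H X hX).trans ?_⟩
  unfold Pool.Agent.Y882.SI.lo dens
  apply Finset.prod_le_prod
  · intro p hp
    have hpp := (mem_filter.1 hp).2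
    have hp0 : (0 : ℝ) < p := by exact_mod_cast hpp.pos
    rw [sub_nonneg, div_le_one hp0]
    have h1 := Pool.Agent.Y882.PX.ro_le_self (Pool.Agent.Y882.SI.QF (-(1 - 4 * a))) 0 p
    exact_mod_cast h1
  · intro p hp
    have hpp := (mem_filter.1 hp).2
    have hp0 : (0 : ℝ) < p := by exact_mod_cast hpp.pos
    rw [rho_eq]
    by_cases h2 : p = 2
    · subst h2
      rw [Pool.Agent.Q117.TF.Zq_two ha]
      have : (0 : ℝ) ≤ (Pool.Agent.Y882.PX.ro (Pool.Agent.Y882.SI.QF (-(1 - 4 * a))) 0 2 : ℝ) / (2 : ℕ) := by positivity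
      simpa using this
    · have h3 : ¬ (p : ℤ) ∣ 2 * 1 := by
        intro h
        have h4 : p ∣ 2 := by exact_mod_cast h
        exact h2 ((Nat.prime_dvd_prime_iff_eq hpp Nat.prime_two).1 h4)
      have h4 := Pool.Agent.Q253.Cov.ro_QP 1 1 a p hpp h3
      rw [show (-(1 ^ 2 - 4 * 1 * a) : ℤ) = -(1 - 4 * a) by ring] at h4
      rw [← h4, ← Pool.Agent.Q253.Cov.Zf_ro]
      have h5 : Pool.Agent.Q253.Cov.Zf (Pool.Agent.Q253.Cov.QP 1 1 a) p = Zq a p := by
        unfold Pool.Agent.Q253.Cov.Zf Zq qv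
        apply filter_congr
        intro n _
        rw [Pool.Agent.Q253.Cov.QP_eval, one_mul, one_mul]
        exact Int.natCast_dvd
      rw [h5]

open Classical in
theorem fixed (a : ℤ) (ha : Odd a) (hD : ¬ IsSquare (1 - 4 * a)) : ∃ δ : ℝ, 0 < δ ∧ ∃ X₀ : ℕ, ∀ X : ℕ, X₀ ≤ X →
    δ * (X / Real.log X) ≤ ((GS true X a).card : ℝ) := by
  obtain ⟨c, hc, H1⟩ := dens_fixed a ha hD
  obtain ⟨δ, hδ, X₀, H2⟩ := Pool.Agent.Q253.Cov.quad_count (a := 1) (b := 1) (c := a) (by norm_num) (by
    rintro q hq ⟨h1, _, _⟩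
    have h2 : q ∣ 1 := by exact_mod_cast h1
    exact hq.one_lt.ne' (Nat.dvd_one.1 h2)) (by
    rintro ⟨_, h⟩
    obtain ⟨b, rfl⟩ := ha
    omega) (by
    rw [show (1 ^ 2 - 4 * 1 * a : ℤ) = 1 - 4 * a by ring]
    exact hD) 3 1 le_rfl (by norm_num) (by norm_num)
  refine ⟨δ * c, by positivity, max X₀ 3, ?_⟩
  intro X hX
  have hX0 : X₀ ≤ X := (le_max_left _ _).trans hX
  have hX3 : 3 ≤ X := (le_max_right _ _).trans hX
  have hXr : (3 : ℝ) ≤ X := by exact_mod_cast hX3
  have h1 := H2 X hX0 0 X (by omega) (by rw [Real.rpow_one])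
  have h2 := H1 X hX3
  have h5 : Pool.Agent.Q253.Cov.Zf (Pool.Agent.Q253.Cov.QP 1 1 a) = Zq a := by
    funext p
    unfold Pool.Agent.Q253.Cov.Zf Zq qv
    apply filter_congr
    intro n _
    rw [Pool.Agent.Q253.Cov.QP_eval, one_mul, one_mul]
    exact Int.natCast_dvd
  rw [h5, ← dens_eq] at h1
  have h3 : (((Pool.Agent.Q253.Cov.GQ (Pool.Agent.Q253.Cov.QP 1 1 a) 3 1 X 0 X).card : ℕ) : ℝ) ≤ ((GS true X a).card : ℝ) := by
    apply Nat.cast_le.2
    apply card_le_card
    intro n hn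
    unfold Pool.Agent.Q253.Cov.GQ Pool.Agent.Q253.Cov.GP at hn
    rw [mem_filter, mem_filter, mem_Ioc] at hn
    obtain ⟨⟨n1, n2, n3⟩, n4⟩ := hn
    rw [Pool.Agent.Q253.Cov.QP_eval, one_mul, one_mul] at n2 n4
    unfold GS
    rw [mem_filter, mem_Icc]
    refine ⟨⟨by omega, by omega⟩, n4, fun h => absurd h (by simp), fun _ => ⟨n2, ?_⟩⟩
    intro q hq hqd
    have h4 := n3 q hq (by
      rw [Pool.Agent.Q253.Cov.QP_eval, one_mul, one_mul, Int.natCast_dvd]
      exact hqd)
    refine le_trans ?_ h4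
    exact Real.rpow_le_rpow_of_exponent_le (by linarith) (by norm_num)
  refine le_trans ?_ (h1.trans h3)
  calc δ * c * (X / Real.log X) = δ * (X * (c / Real.log X)) := by ring
    _ ≤ _ := by
        apply mul_le_mul_of_nonneg_left _ hδ.le
        exact mul_le_mul_of_nonneg_left h2 (by linarith)

open Classical in
/-- **The values `n ^ 2 + n + A` with one prime factor from a thin set.** For every `ε > 0` there are `C > 0` and ONE set `Q` of primes
with at most `C log ^ 3 x` elements up to `x` (all `x ≥ 2`) such that: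

(1) there is `c > 0` such that for all large `X` and all odd integers `A`, `|A| ≤ X ^ 2`, with at most `X ^ (5/3 + ε)` exceptions: at
least `c X dens A X` of the `n ≤ X` are such that `|n ^ 2 + n + A|` is a prime, or there is `q ∈ Q`, `q > X ^ (2/3)`, such that for at
least `c X dens A X / q` of the `n ≤ X` the number `|n ^ 2 + n + A|` is `q` times a prime `≥ q`; here `dens A X ≥ c / log ^ 2 X` for all
odd `A`;

(2) for EVERY odd integer `A` for which `1 - 4 A` is not a square there is `c > 0` such that for all large `X`: at least `c X / log X` of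
the `n ≤ X` are such that `|n ^ 2 + n + A|` is a prime, or there is `q ∈ Q`, `q ≥ X ^ (1/6)`, such that for at least `c X / (q log X)` of
the `n ≤ X` the number `|n ^ 2 + n + A|` is `q` times a number with at most two prime factors, all `≥ q`. -/
theorem result : ∀ ε : ℝ, 0 < ε → ∃ C : ℝ, 0 < C ∧ ∃ Q : Set ℕ, (∀ q ∈ Q, q.Prime) ∧
    (∀ x : ℕ, 2 ≤ x → {q ∈ Q | q ≤ x}.Finite ∧ ({q ∈ Q | q ≤ x}.ncard : ℝ) ≤ C * Real.log x ^ 3) ∧
    (∃ c : ℝ, 0 < c ∧ ∃ X₀ : ℕ, ∀ X : ℕ, X₀ ≤ X → (∀ a : ℤ, Odd a → c / Real.log X ^ 2 ≤ dens a X) ∧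
      ∃ E : Finset ℤ, (E.card : ℝ) ≤ (X : ℝ) ^ (5 / 3 + ε) ∧ ∀ a : ℤ, Odd a → |a| ≤ (X : ℤ) ^ 2 → a ∉ E →
        c * (X * dens a X) ≤ primeValues a X ∨
        ∃ q ∈ Q, (X : ℝ) ^ (2 / 3 : ℝ) < q ∧ c * (X * dens a X / q) ≤ withFactor a q 1 X) ∧
    (∀ a : ℤ, Odd a → ¬ IsSquare (1 - 4 * a) → ∃ c : ℝ, 0 < c ∧ ∃ X₀ : ℕ, ∀ X : ℕ, X₀ ≤ X →
        c * (X / Real.log X) ≤ primeValues a X ∨
        ∃ q ∈ Q, (X : ℝ) ^ (1 / 6 : ℝ) ≤ q ∧ c * (X / (q * Real.log X)) ≤ withFactor a q 2 X) := by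
  intro ε hε
  obtain ⟨δ, hδ, X₁, hfam⟩ := family ε hε
  obtain ⟨cV, hcV, hV⟩ := VZ_low 2 (by norm_num)
  set J : Bool → ℕ → ℤ → Finset ℕ := fun t X a => (GS t X a).filter (fun n => ¬ (qv a n).Prime) with hJdef
  have hJ : ∀ t X a n, n ∈ J t X a → 1 ≤ n ∧ n ≤ X ∧ ¬ (qv a n).Prime ∧ 2 ≤ qv a n ∧
      ∀ q : ℕ, q.Prime → q ∣ qv a n → (X : ℝ) ^ (1 / 6 : ℝ) ≤ q := by
    intro t X a n hn
    rw [hJdef] at hn
    simp only at hn
    unfold GS at hn
    rw [mem_filter, mem_filter, mem_Icc] at hn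
    obtain ⟨⟨⟨n1, n2⟩, n3, n4, n5⟩, n6⟩ := hn
    refine ⟨n1, n2, n6, n3, ?_⟩
    intro q hq hqd
    rcases t with _ | _
    · have h1 := n4 rfl q hq hqd
      have hX1 : (1 : ℝ) ≤ X := by exact_mod_cast n1.trans n2
      have h2 : (X : ℝ) ≤ (q : ℝ) ^ 3 := by
        have h3 : X ≤ q ^ 3 := by nlinarith
        exact_mod_cast h3
      calc (X : ℝ) ^ (1 / 6 : ℝ) ≤ (X : ℝ) ^ (1 / 3 : ℝ) := Real.rpow_le_rpow_of_exponent_le hX1 (by norm_num)
        _ ≤ ((q : ℝ) ^ 3) ^ (1 / 3 : ℝ) := Real.rpow_le_rpow (by linarith) h2 (by norm_num)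
        _ = q := by
            rw [← Real.rpow_natCast, ← Real.rpow_mul (by positivity)]
            norm_num
    · exact (n5 rfl).2 q hq hqd
  obtain ⟨C, hC, Q, hQ, hQc, c', hc', X₂, hthin⟩ := quad_thin J hJ (δ * cV / 2) (by positivity)
  refine ⟨C, hC, Q, hQ, hQc, ?_, ?_⟩
  · obtain ⟨c, hc⟩ : ∃ c, c = min cV (min (δ / 2) (c' * δ / 2)) := ⟨_, rfl⟩
    have hc0 : 0 < c := by rw [hc]; positivity
    have hc1 : c ≤ cV := by rw [hc]; exact min_le_left _ _
    have hc2 : c ≤ δ / 2 := by rw [hc]; exact (min_le_right _ _).trans (min_le_left _ _)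
    have hc3 : c ≤ c' * δ / 2 := by rw [hc]; exact (min_le_right _ _).trans (min_le_right _ _)
    refine ⟨c, hc0, max (max X₁ X₂) 3, ?_⟩
    intro X hX
    have hX1 : X₁ ≤ X := ((le_max_left _ _).trans (le_max_left _ _)).trans hX
    have hX2 : X₂ ≤ X := ((le_max_right _ _).trans (le_max_left _ _)).trans hX
    have hX3 : 3 ≤ X := (le_max_right _ _).trans hX
    have hX0 : (0 : ℝ) < X := by exact_mod_cast (by omega : 0 < X)
    have hlX : 0 < Real.log X := Real.log_pos (by exact_mod_cast (by omega : 1 < X))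
    have hdens : ∀ a : ℤ, Odd a → cV / Real.log X ^ 2 ≤ dens a X := by
      intro a ha
      rw [dens_eq]
      exact hV X (by omega) (Zq a) (Zq_sys ha)
    refine ⟨fun a ha => le_trans (div_le_div_of_nonneg_right hc1 (by positivity)) (hdens a ha), ?_⟩
    obtain ⟨E, hE1, hE2⟩ := hfam X hX1
    refine ⟨E, hE1, fun a hao ha haE => ?_⟩
    have h1 := hE2 a ha haE
    have hd0 : 0 < dens a X := lt_of_lt_of_le (by positivity) (hdens a hao)
    obtain ⟨Y, hY⟩ : ∃ Y, Y = X * dens a X := ⟨_, rfl⟩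
    have hY0 : 0 < Y := by rw [hY]; positivity
    rw [← hY] at h1
    have hsplit : ((GS false X a).filter (fun n => (qv a n).Prime)).card +
        ((GS false X a).filter (fun n => ¬ (qv a n).Prime)).card = (GS false X a).card :=
      card_filter_add_card_filter_not _
    by_cases hcase : ((GS false X a).card : ℝ) / 2 ≤ (((GS false X a).filter (fun n => (qv a n).Prime)).card : ℝ)
    · left
      rw [← hY]
      have h2 : (((GS false X a).filter (fun n => (qv a n).Prime)).card : ℝ) ≤ primeValues a X := by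
        apply Nat.cast_le.2
        unfold primeValues
        apply card_le_card
        intro n hn
        unfold GS at hn
        rw [mem_filter, mem_filter] at hn
        rw [mem_filter]
        exact ⟨hn.1.1, hn.2⟩
      nlinarith
    · right
      push Not at hcase
      have h2 : ((GS false X a).card : ℝ) / 2 ≤ ((J false X a).card : ℝ) := by
        have h3 : (((GS false X a).filter (fun n => (qv a n).Prime)).card : ℝ) + ((J false X a).card : ℝ) =
            ((GS false X a).card : ℝ) := by exact_mod_cast hsplit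
        linarith
      have h3 : δ / 2 * Y ≤ ((J false X a).card : ℝ) := by linarith
      obtain ⟨q, hq, hqJ⟩ := hthin X hX2 a ha false (by
        refine le_trans ?_ h3
        rw [hY]
        calc δ * cV / 2 * (X / Real.log X ^ 2) = δ / 2 * (X * (cV / Real.log X ^ 2)) := by ring
          _ ≤ _ := by
              apply mul_le_mul_of_nonneg_left _ (by positivity)
              exact mul_le_mul_of_nonneg_left (hdens a hao) hX0.le)
      have hq0 : (0 : ℝ) < q := by exact_mod_cast (hQ q hq).pos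
      have h4 : 0 < (((J false X a).filter (fun n => (qv a n).minFac = q)).card : ℝ) := by
        refine lt_of_lt_of_le ?_ hqJ
        have : 0 < ((J false X a).card : ℝ) := lt_of_lt_of_le (by positivity) h3
        positivity
      have hvals : ∀ n ∈ (J false X a).filter (fun n => (qv a n).minFac = q), n ∈ Icc 1 X ∧ 3 * X ^ 2 < q ^ 3 ∧
          ∃ m : ℕ, 2 ≤ m ∧ qv a n = q * m ∧ m.primeFactorsList.length ≤ 1 ∧ ∀ p : ℕ, p.Prime → p ∣ m → q ≤ p := by
        intro n hn
        rw [mem_filter] at hn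
        obtain ⟨hn1, hn2⟩ := hn
        rw [hJdef] at hn1
        simp only at hn1
        unfold GS at hn1
        rw [mem_filter, mem_filter, mem_Icc] at hn1
        obtain ⟨⟨⟨n1, n2⟩, n3, n4, -⟩, n6⟩ := hn1
        have hqd : q ∣ qv a n := by rw [← hn2]; exact Nat.minFac_dvd _
        refine ⟨mem_Icc.2 ⟨n1, n2⟩, n4 rfl q (hQ q hq) hqd, ?_⟩
        have hle : qv a n ≤ 3 * X ^ 2 := qv_le n2 ha
        have hlen := len_le (r := 2) (by omega) hle (n4 rfl)
        have hsq := Nat.minFac_sq_le_self (by omega) n6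
        rw [hn2] at hsq
        obtain ⟨m, hm⟩ := hqd
        have hqp := hQ q hq
        have hqm : q ≤ m := by
          rw [hm, pow_two] at hsq
          exact Nat.le_of_mul_le_mul_left hsq hqp.pos
        have hm0 : m ≠ 0 := by
          have := hqp.pos
          omega
        refine ⟨m, hqp.two_le.trans hqm, hm, ?_, ?_⟩
        · have h1 := (Nat.perm_primeFactorsList_mul hqp.ne_zero hm0).length_eq
          rw [← hm, List.length_append, Nat.primeFactorsList_prime hqp, List.length_singleton] at h1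
          omega
        · intro p hp hpm
          rw [← hn2]
          exact Nat.minFac_le_of_dvd hp.two_le (hm ▸ Dvd.dvd.mul_left hpm q)
      refine ⟨q, hq, ?_, ?_⟩
      · obtain ⟨n, hn⟩ := card_pos.1 (by exact_mod_cast h4)
        have h5 := (hvals n hn).2.1
        have h6 : (X : ℝ) ^ 2 < (q : ℝ) ^ 3 := by
          have : X ^ 2 < q ^ 3 := by nlinarith
          exact_mod_cast this
        calc (X : ℝ) ^ (2 / 3 : ℝ) = ((X : ℝ) ^ 2) ^ (1 / 3 : ℝ) := by
              rw [← Real.rpow_natCast, ← Real.rpow_mul hX0.le]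
              norm_num
          _ < ((q : ℝ) ^ 3) ^ (1 / 3 : ℝ) := Real.rpow_lt_rpow (by positivity) h6 (by norm_num)
          _ = q := by
              rw [← Real.rpow_natCast, ← Real.rpow_mul (by positivity)]
              norm_num
      · have h5 : (((J false X a).filter (fun n => (qv a n).minFac = q)).card : ℝ) ≤ withFactor a q 1 X := by
          apply Nat.cast_le.2
          unfold withFactor
          apply card_le_card
          intro n hn
          obtain ⟨m1, -, m2⟩ := hvals n hn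
          rw [mem_filter]
          exact ⟨m1, m2⟩
        refine le_trans ?_ (hqJ.trans h5)
        rw [← hY]
        calc c * (Y / q) ≤ c' * δ / 2 * (Y / q) := mul_le_mul_of_nonneg_right hc3 (by positivity)
          _ = c' * (δ / 2 * Y) / q := by ring
          _ ≤ c' * ((J false X a).card : ℝ) / q :=
              div_le_div_of_nonneg_right (mul_le_mul_of_nonneg_left h3 hc'.le) hq0.le
  · intro a hao ha
    obtain ⟨δa, hδa, X₃, hfix⟩ := fixed a hao ha
    have ev1 : ∀ᶠ X : ℕ in atTop, δ * cV / δa ≤ Real.log X :=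
      (Real.tendsto_log_atTop.comp tendsto_natCast_atTop_atTop).eventually_ge_atTop _
    have ev2 : ∀ᶠ X : ℕ in atTop, |a| ≤ (X : ℤ) ^ 2 := by
      filter_upwards [eventually_ge_atTop (a.natAbs + 1)] with X hX
      have h1 : (a.natAbs : ℤ) + 1 ≤ X := by exact_mod_cast hX
      rw [Int.natCast_natAbs] at h1
      nlinarith [abs_nonneg a]
    obtain ⟨X₄, hX₄⟩ := eventually_atTop.1 (ev1.and ev2)
    obtain ⟨c, hc⟩ : ∃ c, c = min (δa / 2) (c' * δa / 2) := ⟨_, rfl⟩
    have hc0 : 0 < c := by rw [hc]; positivity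
    have hc2 : c ≤ δa / 2 := by rw [hc]; exact min_le_left _ _
    have hc3 : c ≤ c' * δa / 2 := by rw [hc]; exact min_le_right _ _
    refine ⟨c, hc0, max (max X₂ X₃) (max X₄ 3), ?_⟩
    intro X hX
    have hX2 : X₂ ≤ X := ((le_max_left _ _).trans (le_max_left _ _)).trans hX
    have hX3 : X₃ ≤ X := ((le_max_right _ _).trans (le_max_left _ _)).trans hX
    have hX4 : X₄ ≤ X := ((le_max_left _ _).trans (le_max_right _ _)).trans hX
    have hX5 : 3 ≤ X := ((le_max_right _ _).trans (le_max_right _ _)).trans hX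
    obtain ⟨e1, e2⟩ := hX₄ X hX4
    have hX0 : (0 : ℝ) < X := by exact_mod_cast (by omega : 0 < X)
    have hlX : 0 < Real.log X := Real.log_pos (by exact_mod_cast (by omega : 1 < X))
    have h1 := hfix X hX3
    obtain ⟨Y, hY⟩ : ∃ Y, Y = X / Real.log X := ⟨_, rfl⟩
    have hY0 : 0 < Y := by rw [hY]; positivity
    rw [← hY] at h1
    have hsplit : ((GS true X a).filter (fun n => (qv a n).Prime)).card +
        ((GS true X a).filter (fun n => ¬ (qv a n).Prime)).card = (GS true X a).card :=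
      card_filter_add_card_filter_not _
    by_cases hcase : ((GS true X a).card : ℝ) / 2 ≤ (((GS true X a).filter (fun n => (qv a n).Prime)).card : ℝ)
    · left
      rw [← hY]
      have h2 : (((GS true X a).filter (fun n => (qv a n).Prime)).card : ℝ) ≤ primeValues a X := by
        apply Nat.cast_le.2
        unfold primeValues
        apply card_le_card
        intro n hn
        unfold GS at hn
        rw [mem_filter, mem_filter] at hn
        rw [mem_filter]
        exact ⟨hn.1.1, hn.2⟩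
      nlinarith
    · right
      push Not at hcase
      have h2 : ((GS true X a).card : ℝ) / 2 ≤ ((J true X a).card : ℝ) := by
        have h3 : (((GS true X a).filter (fun n => (qv a n).Prime)).card : ℝ) + ((J true X a).card : ℝ) =
            ((GS true X a).card : ℝ) := by exact_mod_cast hsplit
        linarith
      have h3 : δa / 2 * Y ≤ ((J true X a).card : ℝ) := by linarith
      obtain ⟨q, hq, hqJ⟩ := hthin X hX2 a e2 true (by
        refine le_trans ?_ h3
        rw [hY]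
        rw [div_le_iff₀ hδa] at e1
        have h5 : δ * cV / 2 ≤ δa / 2 * Real.log X := by linarith
        calc δ * cV / 2 * (X / Real.log X ^ 2) ≤ δa / 2 * Real.log X * (X / Real.log X ^ 2) :=
              mul_le_mul_of_nonneg_right h5 (by positivity)
          _ = _ := by field_simp)
      have hq0 : (0 : ℝ) < q := by exact_mod_cast (hQ q hq).pos
      have h4 : 0 < (((J true X a).filter (fun n => (qv a n).minFac = q)).card : ℝ) := by
        refine lt_of_lt_of_le ?_ hqJ
        have : 0 < ((J true X a).card : ℝ) := lt_of_lt_of_le (by positivity) h3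
        positivity
      have hvals : ∀ n ∈ (J true X a).filter (fun n => (qv a n).minFac = q), n ∈ Icc 1 X ∧ (X : ℝ) ^ (1 / 6 : ℝ) ≤ q ∧
          ∃ m : ℕ, 2 ≤ m ∧ qv a n = q * m ∧ m.primeFactorsList.length ≤ 2 ∧ ∀ p : ℕ, p.Prime → p ∣ m → q ≤ p := by
        intro n hn
        rw [mem_filter] at hn
        obtain ⟨hn1, hn2⟩ := hn
        rw [hJdef] at hn1
        simp only at hn1
        unfold GS at hn1
        rw [mem_filter, mem_filter, mem_Icc] at hn1
        obtain ⟨⟨⟨n1, n2⟩, n3, -, n5⟩, n6⟩ := hn1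
        have hqd : q ∣ qv a n := by rw [← hn2]; exact Nat.minFac_dvd _
        refine ⟨mem_Icc.2 ⟨n1, n2⟩, (n5 rfl).2 q (hQ q hq) hqd, ?_⟩
        have hlen := (n5 rfl).1
        have hsq := Nat.minFac_sq_le_self (by omega) n6
        rw [hn2] at hsq
        obtain ⟨m, hm⟩ := hqd
        have hqp := hQ q hq
        have hqm : q ≤ m := by
          rw [hm, pow_two] at hsq
          exact Nat.le_of_mul_le_mul_left hsq hqp.pos
        have hm0 : m ≠ 0 := by
          have := hqp.pos
          omega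
        refine ⟨m, hqp.two_le.trans hqm, hm, ?_, ?_⟩
        · have h1 := (Nat.perm_primeFactorsList_mul hqp.ne_zero hm0).length_eq
          rw [← hm, List.length_append, Nat.primeFactorsList_prime hqp, List.length_singleton] at h1
          omega
        · intro p hp hpm
          rw [← hn2]
          exact Nat.minFac_le_of_dvd hp.two_le (hm ▸ Dvd.dvd.mul_left hpm q)
      refine ⟨q, hq, ?_, ?_⟩
      · obtain ⟨n, hn⟩ := card_pos.1 (by exact_mod_cast h4)
        exact (hvals n hn).2.1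
      · have h5 : (((J true X a).filter (fun n => (qv a n).minFac = q)).card : ℝ) ≤ withFactor a q 2 X := by
          apply Nat.cast_le.2
          unfold withFactor
          apply card_le_card
          intro n hn
          obtain ⟨m1, -, m2⟩ := hvals n hn
          rw [mem_filter]
          exact ⟨m1, m2⟩
        refine le_trans ?_ (hqJ.trans h5)
        calc c * (X / (q * Real.log X)) = c * (Y / q) := by
              rw [hY]
              field_simp
          _ ≤ c' * δa / 2 * (Y / q) := mul_le_mul_of_nonneg_right hc3 (by positivity)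
          _ = c' * (δa / 2 * Y) / q := by ring
          _ ≤ c' * ((J true X a).card : ℝ) / q :=
              div_le_div_of_nonneg_right (mul_le_mul_of_nonneg_left h3 hc'.le) hq0.le

end Pool.Agent.Results.MP_8be758_nt.ThinFactors
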